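import Pool.Agent.H518.ThetaThreeAux

/-!
# The theta graph with three paths of length three is metrizable

The general construction reduces the claim to monotone relations between three chains with at most
two elements, that is to 216 cases, for which the coordinates are listed.
-/

set_option autoImplicit false

namespace Pool.Agent.Results.MP_d7339e_co.ThetaThree

open Pool.Agent.H518.ThetaDefs Pool.Agent.H518.ThetaCore Pool.Agent.H518.ThetaThreeAux

/-- The theta graph with three paths of length `3` is metrizable. -/
theorem result : Metrizable (theta ![3, 3, 3]) := by
  apply metrizable_theta
  · intro i
    fin_cases i <;> exact Nat.le_succ 2
  · intro n hn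
    refine WR_two n (fun i => ?_)
    have := hn i
    fin_cases i <;> exact this

end Pool.Agent.Results.MP_d7339e_co.ThetaThree
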