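import Pool.Agent.H518.ThetaCore

/-!
# Theta graphs with a path of length two are metrizable

Let `P` be a consistent path system in a theta graph, and let the path from `s` to `t` be one of the
three branches. The positions of the vertices on the branches are given by coordinates; the vertices
of the other two branches whose path to `s` (to `t`) passes through `t` (through `s`) can be treated
branch by branch, and the others give monotone relations between three chains. If one chain has at
most one element, these relations are realized by the signs of sums of coordinates.
-/

set_option autoImplicit false

namespace Pool.Agent.Results.MP_d7339e_co.ThetaTwo

open Pool.Agent.H518.ThetaDefs Pool.Agent.H518.ThetaCore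

/-- For all `b, c ≥ 2` the theta graph with paths of lengths `2`, `b` and `c` is metrizable. -/
theorem result : ∀ b c : ℕ, 2 ≤ b → 2 ≤ c → Metrizable (theta ![2, b, c]) := by
  intro b c hb hc
  apply metrizable_theta
  · intro i
    fin_cases i
    · exact le_rfl
    · exact hb
    · exact hc
  · intro n hn
    exact WR_one n (hn 0)

end Pool.Agent.Results.MP_d7339e_co.ThetaTwo
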